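import Mathlib

set_option autoImplicit false

namespace H332Z.Gap

open Finset

/-- incidence between point `p` and block `b`, both below 33 -/
def inc (p b : ℕ) : Bool :=
  if p / 11 = b / 11 then
    (let r := (p % 11 + 11 - b % 11) % 11
     r == 1 || r == 3 || r == 4 || r == 5 || r == 9)
  else p % 11 == b % 11

/-- adjacency -/
def adj0 (x y : Fin 66) : Bool :=
  (x.1 < 33 && 33 ≤ y.1 && inc x.1 (y.1 - 33)) || (y.1 < 33 && 33 ≤ x.1 && inc y.1 (x.1 - 33))

theorem adj0_symm : ∀ x y, adj0 x y = adj0 y x := by
  intro x y; unfold adj0; rw [Bool.or_comm]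

theorem adj0_irr : ∀ x, adj0 x x = false := by decide +kernel

/-- the incidence graph of a symmetric group divisible design on 33 points -/
def G0 : SimpleGraph (Fin 66) where
  Adj x y := adj0 x y = true
  symm := ⟨fun x y h => by rw [adj0_symm]; exact h⟩
  loopless := ⟨fun x h => by rw [adj0_irr] at h; exact Bool.false_ne_true h⟩

/-- the side -/
def side (x : Fin 66) : Fin 2 := ⟨x.1 / 33, by omega⟩

/-- the group -/
def grp (x : Fin 66) : Fin 6 := ⟨x.1 / 11, by omega⟩

theorem codeg0 : ∀ x y : Fin 66, (univ.filter fun u => adj0 x u = true ∧ adj0 y u = true).card =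
    (if x = y then 5 else 0) + (if side x = side y then 1 else 0) + (if grp x = grp y then 1 else 0) := by
  decide +kernel

end H332Z.Gap
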