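import Mathlib

set_option autoImplicit false

namespace H332Z.Gap

open Classical in
/-- The normalized Laplacian `I - D⁻¹ A` of a finite simple graph, as a real matrix. -/
noncomputable def normLap {V : Type} [Fintype V] (G : SimpleGraph V) : Matrix V V ℝ :=
  fun v w => (if v = w then 1 else 0) - (if G.Adj v w then 1 / (G.degree v : ℝ) else 0)

open Classical in
/-- The spectral gap from one: the least distance from `1` to an eigenvalue of the normalized
Laplacian. -/
noncomputable def gap {V : Type} [Fintype V] (G : SimpleGraph V) : ℝ :=
  sInf ((fun t : ℝ => |t - 1|) '' spectrum ℝ (normLap G))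

/-- A `(v, k, l)` design on the point set `P` (so `v` is the size of `P`) with blocks `blk b`:
all blocks have `k` points and two distinct points lie in exactly `l` blocks. -/
def IsDesign {P B : Type} (blk : B → Finset P) (k l : ℕ) : Prop :=
  (∀ b, (blk b).card = k) ∧ ∀ x y : P, x ≠ y → {b : B | x ∈ blk b ∧ y ∈ blk b}.ncard = l

/-- The incidence graph: each point is joined to the blocks containing it. -/
def incGraph {P B : Type} (blk : B → Finset P) : SimpleGraph (P ⊕ B) :=
  SimpleGraph.fromRel fun u w => ∃ (x : P) (b : B), u = Sum.inl x ∧ w = Sum.inr b ∧ x ∈ blk b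

end H332Z.Gap
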