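import Pool.Agent.H332Z.Gap.Defs
import Pool.Agent.H332Z.Gap.Calc
import Pool.Agent.H177R2.SD.Brc

set_option autoImplicit false

namespace H332Z.Gap

open Matrix Finset Pool.Agent.H177R2.SD

section general

variable {V : Type} [Fintype V]

open Classical in
theorem mem_spec_iff (G : SimpleGraph V) (t : ℝ) : t ∈ spectrum ℝ (normLap G) ↔
    ∃ w : V → ℝ, w ≠ 0 ∧ ∀ v, ∑ u, (if G.Adj v u then 1 / (G.degree v : ℝ) else 0) * w u =
      (1 - t) * w v := by
  rw [spectrum.mem_iff, Matrix.isUnit_iff_isUnit_det, isUnit_iff_ne_zero, not_not,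
    ← Matrix.exists_mulVec_eq_zero_iff]
  refine exists_congr fun w => and_congr_right fun _ => ?_
  rw [funext_iff]
  refine forall_congr' fun v => ?_
  rw [Matrix.sub_mulVec, Algebra.algebraMap_eq_smul_one, Matrix.smul_mulVec, Matrix.one_mulVec]
  simp only [Matrix.mulVec, dotProduct, normLap, Pi.sub_apply, Pi.smul_apply, smul_eq_mul,
    Pi.zero_apply, sub_mul, Finset.sum_sub_distrib, ite_mul, one_mul, zero_mul,
    Finset.sum_ite_eq, Finset.mem_univ, if_true]
  constructor <;> intro h <;> linarith

open Classical in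
theorem gap_le (G : SimpleGraph V) (w : V → ℝ) (hw : w ≠ 0) (μ : ℝ)
    (h : ∀ v, ∑ u, (if G.Adj v u then 1 / (G.degree v : ℝ) else 0) * w u = μ * w v) :
    gap G ≤ |μ| := by
  refine csInf_le ⟨0, ?_⟩ ⟨1 - μ, (mem_spec_iff G _).2 ⟨w, hw, by simpa using h⟩, by simp⟩
  rintro _ ⟨t, -, rfl⟩
  exact abs_nonneg _

open Classical in
theorem gap_le_of_ker (G : SimpleGraph V) (w : V → ℝ) (hw : w ≠ 0)
    (h : ∀ v, ∑ u, (if G.Adj v u then (1 : ℝ) else 0) * w u = 0) : gap G ≤ 0 := by
  refine (gap_le G w hw 0 fun v => ?_).trans (by simp)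
  have : ∀ u, (if G.Adj v u then 1 / (G.degree v : ℝ) else 0) * w u =
      1 / (G.degree v : ℝ) * ((if G.Adj v u then (1 : ℝ) else 0) * w u) := by
    intro u; split_ifs <;> simp
  simp only [this, ← Finset.mul_sum, h v, mul_zero, zero_mul]

open Classical in
/-- eigenvectors of the adjacency matrix of a regular graph -/
theorem reg_iff (G : SimpleGraph V) {d : ℕ} (hd : 0 < d) (hG : ∀ v, G.degree v = d) (w : V → ℝ)
    (μ : ℝ) (v : V) :
    ∑ u, (if G.Adj v u then 1 / (G.degree v : ℝ) else 0) * w u = μ * w v ↔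
      ∑ u, (if G.Adj v u then (1 : ℝ) else 0) * w u = (d * μ) * w v := by
  have : ∀ u, (if G.Adj v u then 1 / (G.degree v : ℝ) else 0) * w u =
      1 / (d : ℝ) * ((if G.Adj v u then (1 : ℝ) else 0) * w u) := by
    intro u; rw [hG]; split_ifs <;> simp
  have hd' : (d : ℝ) ≠ 0 := by positivity
  simp only [this, ← Finset.mul_sum]
  constructor
  · intro h
    rw [mul_assoc, ← h]; field_simp
  · intro h
    rw [h]; field_simp

open Classical in
theorem gap_le_of_sq (G : SimpleGraph V) {d : ℕ} (hd : 0 < d) (hG : ∀ v, G.degree v = d)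
    (w : V → ℝ) (hw : w ≠ 0) (θ : ℝ) (hθ : 0 ≤ θ)
    (h : ∀ v, ∑ u, (if G.Adj v u then (1 : ℝ) else 0) *
      (∑ x, (if G.Adj u x then (1 : ℝ) else 0) * w x) = θ ^ 2 * w v) : gap G ≤ θ / d := by
  have hd' : (0 : ℝ) < d := by positivity
  set z : V → ℝ := fun u => (∑ x, (if G.Adj u x then (1 : ℝ) else 0) * w x) + θ * w u with hz
  by_cases hz0 : z = 0
  · refine (gap_le G w hw (-θ / d) fun v => (reg_iff G hd hG w _ v).2 ?_).trans ?_
    · have := congrFun hz0 v
      simp only [hz, Pi.zero_apply] at this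
      rw [mul_div_cancel₀ _ hd'.ne']
      linarith
    · rw [abs_div, abs_neg, abs_of_nonneg hθ, abs_of_pos hd']
  · refine (gap_le G z hz0 (θ / d) fun v => (reg_iff G hd hG z _ v).2 ?_).trans ?_
    · rw [mul_div_cancel₀ _ hd'.ne']
      simp only [hz, mul_add, Finset.sum_add_distrib, h v]
      have : ∑ u, (if G.Adj v u then (1 : ℝ) else 0) * (θ * w u) =
          θ * ∑ u, (if G.Adj v u then (1 : ℝ) else 0) * w u := by
        rw [Finset.mul_sum]; exact Finset.sum_congr rfl fun u _ => by ring
      rw [this]; ring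
    · rw [abs_div, abs_of_nonneg hθ, abs_of_pos hd']

open Classical in
theorem sq_expand (G : SimpleGraph V) (w : V → ℝ) (v : V) :
    ∑ u, (if G.Adj v u then (1 : ℝ) else 0) * (∑ x, (if G.Adj u x then (1 : ℝ) else 0) * w x) =
      ∑ x, ((univ.filter fun u => G.Adj v u ∧ G.Adj x u).card : ℝ) * w x := by
  simp only [Finset.mul_sum]
  rw [Finset.sum_comm]
  refine Finset.sum_congr rfl fun x _ => ?_
  rw [Finset.card_filter]
  push_cast
  rw [Finset.sum_mul]
  refine Finset.sum_congr rfl fun u _ => ?_
  by_cases h1 : G.Adj v u <;> by_cases h2 : G.Adj u x <;> simp [h1, h2, G.adj_comm x u]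

theorem fiber_nonneg {K : Type} [Fintype K] [DecidableEq K] (φ : V → K) (w : V → ℝ) :
    0 ≤ ∑ v, w v * ∑ x, (if φ v = φ x then (1 : ℝ) else 0) * w x := by
  have h : ∑ v, w v * ∑ x, (if φ v = φ x then (1 : ℝ) else 0) * w x =
      ∑ k, (∑ x, (if φ x = k then (1 : ℝ) else 0) * w x) ^ 2 := by
    simp only [sq, Finset.sum_mul_sum]
    simp only [Finset.mul_sum]
    symm
    rw [Finset.sum_comm]
    refine Finset.sum_congr rfl fun v _ => ?_
    rw [Finset.sum_comm]
    refine Finset.sum_congr rfl fun x _ => ?_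
    rw [Finset.sum_eq_single (φ v)]
    · by_cases h : φ v = φ x
      · simp [h]
      · simp [h, Ne.symm h]
    · intro k _ hk
      simp [Ne.symm hk]
    · simp
  rw [h]
  exact Finset.sum_nonneg fun k _ => sq_nonneg _

end general

open Classical in
theorem codeg (x y : Fin 66) : ((univ.filter fun u => G0.Adj x u ∧ G0.Adj y u).card : ℝ) =
    (if x = y then 5 else 0) + (if side x = side y then 1 else 0) + (if grp x = grp y then 1 else 0) := by
  have h := codeg0 x y
  have h2 : (univ.filter fun u => G0.Adj x u ∧ G0.Adj y u) =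
      (univ.filter fun u => adj0 x u = true ∧ adj0 y u = true) := by
    ext u; simp only [Finset.mem_filter]; rfl
  rw [h2, h]
  push_cast
  rfl

open Classical in
theorem deg0 (x : Fin 66) : G0.degree x = 7 := by
  have h := codeg x x
  simp only [and_self, if_true] at h
  have h2 : G0.neighborFinset x = univ.filter fun u => G0.Adj x u := by
    ext u; simp
  rw [← SimpleGraph.card_neighborFinset_eq_degree, h2]
  have h3 : ((univ.filter fun u => G0.Adj x u).card : ℝ) = (7 : ℕ) := by rw [h]; norm_num
  exact_mod_cast h3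

theorem conn0 : G0.Connected := by
  classical
  have h1 : ∀ x y : Fin 66, side x = side y → G0.Reachable x y := by
    intro x y hxy
    have h := codeg x y
    rw [if_pos hxy] at h
    have h2 : (0 : ℝ) < ((univ.filter fun u => G0.Adj x u ∧ G0.Adj y u).card : ℝ) := by
      rw [h]; split_ifs <;> norm_num
    obtain ⟨u, hu⟩ := Finset.card_pos.1 (by exact_mod_cast h2)
    have h3 := (Finset.mem_filter.1 hu).2
    exact h3.1.reachable.trans h3.2.reachable.symm
  have h3 : G0.Adj 33 1 := by
    change adj0 33 1 = true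
    decide
  have h4 : ∀ x : Fin 66, side x = side 1 ∨ side x = side 33 := by decide
  have h2 : ∀ x : Fin 66, G0.Reachable x 1 := by
    intro x
    rcases h4 x with h | h
    · exact h1 _ _ h
    · exact (h1 _ _ h).trans h3.reachable
  exact ⟨fun x y => (h2 x).trans (h2 y).symm⟩

open Classical in
theorem gap0 : gap G0 = √5 / 7 := by
  have hsq : ∀ (w : Fin 66 → ℝ) (v : Fin 66), ∑ u, (if G0.Adj v u then (1 : ℝ) else 0) *
      (∑ x, (if G0.Adj u x then (1 : ℝ) else 0) * w x) =
      5 * w v + ∑ x, (if side v = side x then (1 : ℝ) else 0) * w x +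
        ∑ x, (if grp v = grp x then (1 : ℝ) else 0) * w x := by
    intro w v
    rw [sq_expand]
    simp only [codeg, add_mul, Finset.sum_add_distrib]
    congr 2
    simp
  have hup : gap G0 ≤ √5 / 7 := by
    refine gap_le_of_sq G0 (d := 7) (by norm_num) deg0
      (fun x => (if x = 0 then 1 else 0) - (if x = 1 then 1 else 0)) ?_ (√5) (by positivity) ?_
    · intro h
      have := congrFun h 0
      simp at this
    · intro v
      rw [hsq, Real.sq_sqrt (by norm_num)]
      have e1 : side 1 = side 0 := by decide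
      have e2 : grp 1 = grp 0 := by decide
      simp [mul_sub, Finset.sum_sub_distrib, e1, e2]
  refine le_antisymm hup (le_csInf ?_ ?_)
  · refine ⟨_, 0, (mem_spec_iff G0 0).2 ⟨fun _ => 1, fun h => by simpa using congrFun h 0, fun v => ?_⟩,
      rfl⟩
    refine (reg_iff G0 (d := 7) (by norm_num) deg0 (fun _ => 1) _ v).2 ?_
    have h := codeg v v
    simp only [and_self, if_true] at h
    rw [Finset.card_filter] at h
    push_cast at h
    simp only [mul_one]
    rw [h]; norm_num
  · rintro _ ⟨t, ht, rfl⟩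
    obtain ⟨w, hw, h⟩ := (mem_spec_iff G0 t).1 ht
    have h1 := fun v => (reg_iff G0 (d := 7) (by norm_num) deg0 w _ v).1 (h v)
    set θ : ℝ := ((7 : ℕ) : ℝ) * (1 - t) with hθ
    have h2 : ∀ v, θ ^ 2 * w v = 5 * w v + ∑ x, (if side v = side x then (1 : ℝ) else 0) * w x +
        ∑ x, (if grp v = grp x then (1 : ℝ) else 0) * w x := by
      intro v
      rw [← hsq]
      simp only [h1]
      have : ∑ u, (if G0.Adj v u then (1 : ℝ) else 0) * (θ * w u) =
          θ * ∑ u, (if G0.Adj v u then (1 : ℝ) else 0) * w u := by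
        rw [Finset.mul_sum]; exact Finset.sum_congr rfl fun u _ => by ring
      rw [this, h1]; ring
    have h3 : θ ^ 2 * ∑ v, w v ^ 2 = 5 * ∑ v, w v ^ 2 +
        ∑ v, w v * ∑ x, (if side v = side x then (1 : ℝ) else 0) * w x +
        ∑ v, w v * ∑ x, (if grp v = grp x then (1 : ℝ) else 0) * w x := by
      rw [Finset.mul_sum, Finset.mul_sum, ← Finset.sum_add_distrib, ← Finset.sum_add_distrib]
      refine Finset.sum_congr rfl fun v _ => ?_
      have := h2 v
      linear_combination w v * this
    have h4 := fiber_nonneg side w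
    have h5 := fiber_nonneg grp w
    have h6 : 0 < ∑ v, w v ^ 2 := by
      obtain ⟨v, hv⟩ := Function.ne_iff.1 hw
      exact Finset.sum_pos' (fun v _ => sq_nonneg _) ⟨v, Finset.mem_univ v, sq_pos_of_ne_zero hv⟩
    have h7 : 5 ≤ θ ^ 2 := by
      by_contra hc
      push Not at hc
      nlinarith
    have h8 : √5 ≤ |θ| := Real.sqrt_le_sqrt h7 |>.trans (Real.sqrt_sq_eq_abs θ).le
    have h9 : |θ| = 7 * |t - 1| := by
      rw [hθ, abs_mul, abs_sub_comm]; norm_num
    change √5 / 7 ≤ |t - 1|
    rw [div_le_iff₀ (by norm_num)]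
    linarith

theorem no43 : ¬ IsSymmetricDesign 43 7 1 := fun h => by
  have := (brc_local (p := 3) h (by norm_num) (by norm_num) (by norm_num) (by norm_num)
    (by norm_num) (by norm_num) (by norm_num)).2
  revert this
  decide

theorem no22 : ¬ IsSymmetricDesign 22 7 2 := fun h => by
  have := (brc_local (p := 5) h (by norm_num) (by norm_num) (by norm_num) (by norm_num)
    (by norm_num) (by norm_num) (by norm_num)).1
  revert this
  decide

theorem symm_of {P B : Type} [Fintype P] [Fintype B] [DecidableEq P] (blk : B → Finset P)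
    {v k l r : ℕ} (hkv : k < v) (hP : Fintype.card P = v) (hB : Fintype.card B = v)
    (h1 : ∀ b, (blk b).card = k) (h2 : ∀ x, (univ.filter fun b => x ∈ blk b).card = r)
    (h3 : ∀ x y, x ≠ y → (univ.filter fun b => x ∈ blk b ∧ y ∈ blk b).card = l) :
    IsSymmetricDesign v k l := by
  let eP : P ≃ Fin v := Fintype.equivFinOfCardEq hP
  let eB : B ≃ Fin v := Fintype.equivFinOfCardEq hB
  refine ⟨hkv, r, fun i => (blk (eB.symm i)).map eP.toEmbedding, fun i => by simp [h1],
    fun x => ?_, fun x y hxy => ?_⟩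
  · rw [← h2 (eP.symm x)]
    refine Finset.card_equiv eB.symm fun i => ?_
    simp
  · rw [← h3 (eP.symm x) (eP.symm y) (fun h => hxy (eP.symm.injective h))]
    refine Finset.card_equiv eB.symm fun i => ?_
    simp

theorem no_plane (P L : Type) [Membership P L] [Finite P] [Finite L]
    [Configuration.ProjectivePlane P L] : Configuration.ProjectivePlane.order P L ≠ 6 := by
  classical
  intro h
  have := Fintype.ofFinite P
  have := Fintype.ofFinite L
  refine no43 (symm_of (fun l : L => univ.filter fun p : P => p ∈ l) (r := 7) (by norm_num)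
    (by rw [Configuration.ProjectivePlane.card_points P L, h]; norm_num)
    (by rw [Configuration.ProjectivePlane.card_lines P L, h]; norm_num) (fun l => ?_)
    (fun p => ?_) (fun p q hpq => ?_))
  · have h1 := Configuration.ProjectivePlane.pointCount_eq P l
    rw [h, Configuration.pointCount, Nat.card_eq_fintype_card, Fintype.card_subtype] at h1
    exact h1
  · have h1 := Configuration.ProjectivePlane.lineCount_eq L p
    rw [h, Configuration.lineCount, Nat.card_eq_fintype_card, Fintype.card_subtype] at h1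
    simpa using h1
  · obtain ⟨l, hl, hu⟩ := Configuration.HasLines.existsUnique_line P L p q hpq
    rw [Finset.card_eq_one]
    refine ⟨l, ?_⟩
    ext m
    simp only [mem_filter, mem_univ, true_and, mem_singleton]
    exact ⟨fun hm => hu m hm, fun hm => hm ▸ hl⟩

section design

variable {P B : Type} (blk : B → Finset P)

@[simp] theorem adj_ll (x y : P) : ¬ (incGraph blk).Adj (Sum.inl x) (Sum.inl y) := by
  simp [incGraph]

@[simp] theorem adj_rr (x y : B) : ¬ (incGraph blk).Adj (Sum.inr x) (Sum.inr y) := by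
  simp [incGraph]

@[simp] theorem adj_lr (x : P) (b : B) : (incGraph blk).Adj (Sum.inl x) (Sum.inr b) ↔ x ∈ blk b := by
  simp [incGraph]

@[simp] theorem adj_rl (x : P) (b : B) : (incGraph blk).Adj (Sum.inr b) (Sum.inl x) ↔ x ∈ blk b := by
  simp [incGraph]

theorem exists_ker {α β : Type} [Fintype α] [Fintype β] (N : Matrix α β ℝ)
    (h : Fintype.card α < Fintype.card β) : ∃ f : β → ℝ, f ≠ 0 ∧ N *ᵥ f = 0 := by
  classical
  have h1 := LinearMap.ker_ne_bot_of_finrank_lt (f := Matrix.toLin' N) (by simpa using h)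
  obtain ⟨f, hf, hf0⟩ := Submodule.exists_mem_ne_zero_of_ne_bot h1
  exact ⟨f, hf0, by simpa using hf⟩

open Classical in
theorem design_gap [Fintype P] [Fintype B] {l : ℕ} (hd : IsDesign blk 7 l)
    (hc : (incGraph blk).Connected) : gap (incGraph blk) ≤ 2 / 7 := by
  rcases lt_trichotomy (Fintype.card P) (Fintype.card B) with hlt | heq | hlt
  · obtain ⟨f, hf, hN⟩ := exists_ker (Matrix.of fun (x : P) (b : B) => if x ∈ blk b then (1 : ℝ) else 0) hlt
    refine (gap_le_of_ker _ (Sum.elim 0 f) ?_ ?_).trans (by norm_num)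
    · intro h
      exact hf (funext fun b => congrFun h (Sum.inr b))
    · rintro (x | b)
      · have := congrFun hN x
        simpa [Matrix.mulVec, dotProduct] using this
      · simp
  swap
  · obtain ⟨f, hf, hN⟩ := exists_ker (Matrix.of fun (b : B) (x : P) => if x ∈ blk b then (1 : ℝ) else 0) hlt
    refine (gap_le_of_ker _ (Sum.elim f 0) ?_ ?_).trans (by norm_num)
    · intro h
      exact hf (funext fun b => congrFun h (Sum.inl b))
    · rintro (x | b)
      · simp
      · have := congrFun hN b
        simpa [Matrix.mulVec, dotProduct] using this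
  obtain ⟨h1, h2⟩ := hd
  have h3 : ∀ x y, x ≠ y → (univ.filter fun b => x ∈ blk b ∧ y ∈ blk b).card = l := by
    intro x y hxy
    rw [← h2 x y hxy, ← Set.ncard_coe_finset]
    congr 1
    ext b; simp
  have hBne : Nonempty B := by
    obtain ⟨u | b⟩ := hc.nonempty
    · have : 0 < Fintype.card P := Fintype.card_pos_iff.2 ⟨u⟩
      exact Fintype.card_pos_iff.1 (by omega)
    · exact ⟨b⟩
  obtain ⟨b0⟩ := hBne
  set v := Fintype.card P with hv
  have hv7 : 7 ≤ v := by rw [← h1 b0]; exact Finset.card_le_univ _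
  have hr : ∀ x, (univ.filter fun b => x ∈ blk b).card * 6 = l * (v - 1) := by
    intro x
    have e1 : ∑ b ∈ univ.filter (fun b => x ∈ blk b), ((blk b).erase x).card =
        (univ.filter fun b => x ∈ blk b).card * 6 := by
      rw [Finset.sum_congr rfl (g := fun _ => 6)]
      · simp
      · intro b hb
        rw [Finset.card_erase_of_mem (mem_filter.1 hb).2, h1]
    have e2 : ∑ y ∈ univ.erase x, (univ.filter fun b => x ∈ blk b ∧ y ∈ blk b).card = l * (v - 1) := by
      rw [Finset.sum_congr rfl (g := fun _ => l)]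
      · simp [hv, mul_comm]
      · intro y hy
        exact h3 x y (Finset.ne_of_mem_erase hy).symm
    rw [← e1, ← e2]
    simp only [Finset.card_eq_sum_ones]
    refine Finset.sum_comm' fun b y => ?_
    simp only [mem_filter, mem_univ, true_and, mem_erase, and_true]
    tauto
  have hsum : ∑ x, (univ.filter fun b => x ∈ blk b).card = v * 7 := by
    have e1 : ∑ b : B, (blk b).card = v * 7 := by simp [h1, heq]
    rw [← e1]
    simp only [Finset.card_eq_sum_ones]
    refine Finset.sum_comm' fun b y => ?_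
    simp
  have hl : l * (v - 1) = 42 := by
    have e1 : ∑ x, (univ.filter fun b => x ∈ blk b).card * 6 = v * (l * (v - 1)) := by
      simp [hr, hv]
    rw [← Finset.sum_mul, hsum, mul_assoc] at e1
    exact (Nat.eq_of_mul_eq_mul_left (by omega) e1).symm
  have hr7 : ∀ x, (univ.filter fun b => x ∈ blk b).card = 7 := by
    intro x
    have := hr x
    omega
  have hl3 : 3 ≤ l := by
    by_contra hc
    have : l = 0 ∨ l = 1 ∨ l = 2 := by omega
    rcases this with rfl | rfl | rfl
    · omega
    · exact no43 (symm_of blk (by norm_num) (by omega) (by omega) h1 hr7 h3)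
    · exact no22 (symm_of blk (by norm_num) (by omega) (by omega) h1 hr7 h3)
  have hl7 : l ≤ 7 := by
    by_contra hc
    have : 8 * 6 ≤ l * (v - 1) := Nat.mul_le_mul (by omega) (by omega)
    omega
  have hdeg : ∀ u, (incGraph blk).degree u = 7 := by
    rintro (x | b)
    · rw [← SimpleGraph.card_neighborFinset_eq_degree, ← hr7 x,
        ← Finset.card_map (⟨Sum.inr, Sum.inr_injective⟩ : B ↪ P ⊕ B)]
      refine congrArg Finset.card ?_
      ext (y | b) <;> simp
    · rw [← SimpleGraph.card_neighborFinset_eq_degree, ← h1 b,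
        ← Finset.card_map (⟨Sum.inl, Sum.inl_injective⟩ : P ↪ P ⊕ B)]
      refine congrArg Finset.card ?_
      ext (y | b) <;> simp
  obtain ⟨x0, x1, hx⟩ : ∃ x0 x1 : P, x0 ≠ x1 := Fintype.exists_pair_of_one_lt_card (by omega)
  have hl7' : (0 : ℝ) ≤ 7 - l := by
    have : (l : ℝ) ≤ 7 := by exact_mod_cast hl7
    linarith
  refine (gap_le_of_sq _ (d := 7) (by norm_num) hdeg
    (fun u => (if u = Sum.inl x0 then 1 else 0) - (if u = Sum.inl x1 then 1 else 0)) ?_
    (√(7 - l)) (by positivity) ?_).trans ?_
  · intro h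
    have := congrFun h (Sum.inl x0)
    simp [hx] at this
  · intro u
    rw [sq_expand, Real.sq_sqrt hl7']
    simp only [mul_sub, Finset.sum_sub_distrib, mul_ite, mul_one, mul_zero, Finset.sum_ite_eq',
      Finset.mem_univ, if_true]
    have hcd : ∀ x y : P, ((univ.filter fun u => (incGraph blk).Adj (Sum.inl x) u ∧
        (incGraph blk).Adj (Sum.inl y) u).card : ℝ) = if x = y then 7 else l := by
      intro x y
      have : (univ.filter fun u => (incGraph blk).Adj (Sum.inl x) u ∧
          (incGraph blk).Adj (Sum.inl y) u) =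
          (univ.filter fun b => x ∈ blk b ∧ y ∈ blk b).map ⟨Sum.inr, Sum.inr_injective⟩ := by
        ext (z | b) <;> simp
      rw [this, Finset.card_map]
      split_ifs with hxy
      · subst hxy
        simp [hr7]
      · rw [h3 x y hxy]
    rcases u with x | b
    · rw [hcd, hcd]
      simp only [Sum.inl.injEq]
      split_ifs <;> ring
    · have : ∀ y : P, (univ.filter fun u => (incGraph blk).Adj (Sum.inr b) u ∧
          (incGraph blk).Adj (Sum.inl y) u) = ∅ := by
        intro y
        ext (z | b) <;> simp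
      simp [this]
  · have : √(7 - (l : ℝ)) ≤ 2 := by
      rw [Real.sqrt_le_iff]
      have : (3 : ℝ) ≤ l := by exact_mod_cast hl3
      constructor <;> linarith
    push_cast
    linarith

end design

end H332Z.Gap
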